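import Mathlib
import Pool.Agent.Y215.CT.Stm
import Pool.Agent.TH847.LS.Quad

/-!
# Different pairs give different ideal classes
-/

set_option autoImplicit false

namespace Pool.Agent.Y919.CT

open NumberField Finset Ideal
open Pool.Agent.TH847.LS
open scoped nonZeroDivisors

variable {K : Type} [Field K] [NumberField K]

/-- a rational algebraic integer is a rational integer -/
theorem int_of_mul (h2 : Module.finrank ℚ K = 2) {α : 𝓞 K} {a b : ℤ} (ha : a ≠ 0)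
    (h : (a : 𝓞 K) * α = (b : 𝓞 K)) : ∃ k : ℤ, α = (k : 𝓞 K) := by
  have h3 : Algebra.norm ℤ ((a : 𝓞 K) * α) = a ^ 2 * Algebra.norm ℤ α := by
    rw [map_mul, norm_int h2]
  rw [h, norm_int h2] at h3
  have h4 : a ∣ b := (Int.pow_dvd_pow_iff (two_ne_zero)).mp ⟨_, h3⟩
  obtain ⟨k, hk⟩ := h4
  refine ⟨k, ?_⟩
  have h5 : (a : 𝓞 K) * α = (a : 𝓞 K) * (k : 𝓞 K) := by rw [h, hk]; push_cast; ring
  exact mul_left_cancel₀ (by exact_mod_cast ha) h5

/-- two quadratic equations of the same algebraic integer coincide -/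
theorem quad_unique (h2 : Module.finrank ℚ K = 2) {α : 𝓞 K} (hα : ∀ k : ℤ, α ≠ (k : 𝓞 K))
    {t M t' M' : ℤ} (h : α ^ 2 - (t : 𝓞 K) * α + (M : 𝓞 K) = 0)
    (h' : α ^ 2 - (t' : 𝓞 K) * α + (M' : 𝓞 K) = 0) : t = t' ∧ M = M' := by
  have h3 : ((t - t' : ℤ) : 𝓞 K) * α = ((M - M' : ℤ) : 𝓞 K) := by
    push_cast
    linear_combination h' - h
  have h4 : t = t' := by
    by_contra hne
    obtain ⟨k, hk⟩ := int_of_mul h2 (sub_ne_zero.mpr hne) h3
    exact hα k hk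
  refine ⟨h4, ?_⟩
  rw [h4, sub_self, Int.cast_zero, zero_mul] at h3
  have h5 : M - M' = 0 := by exact_mod_cast h3.symm
  omega

/-- the norm lemma -/
theorem norm_eq (h2 : Module.finrank ℚ K = 2) {α : 𝓞 K} (hα : ∀ k : ℤ, α ≠ (k : 𝓞 K)) :
    ∃ t : ℤ, α ^ 2 - (t : 𝓞 K) * α + ((Algebra.norm ℤ α : ℤ) : 𝓞 K) = 0 := by
  obtain ⟨t, m, -, h3, -⟩ := quad_eq h2 α hα
  refine ⟨t, ?_⟩
  push_cast at h3
  have h4 : (4 : 𝓞 K) * (α ^ 2 - (t : 𝓞 K) * α + ((Algebra.norm ℤ α : ℤ) : 𝓞 K)) = 0 := by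
    linear_combination h3
  rcases mul_eq_zero.mp h4 with h | h
  · exact absurd h (by norm_num)
  · exact h

/-- units are `1` and `-1` -/
theorem unit_eq (h2 : Module.finrank ℚ K = 2) (hd : discr K < 0) (h4 : 4 < |discr K|)
    (u : (𝓞 K)ˣ) : (u : 𝓞 K) = 1 ∨ (u : 𝓞 K) = -1 := by
  have hu : IsUnit (Algebra.norm ℤ (u : 𝓞 K)) := u.isUnit.map _
  have hu1 : |Algebra.norm ℤ (u : 𝓞 K)| = 1 := Int.isUnit_iff_abs_eq.mp hu
  obtain ⟨k, hk⟩ := int_of_small h2 hd (α := (u : 𝓞 K)) (by rw [hu1]; simpa using h4)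
  rw [hk, norm_int h2, abs_of_nonneg (sq_nonneg k)] at hu1
  rcases mul_self_eq_one_iff.mp ((sq k).symm.trans hu1) with h | h
  · left; rw [hk, h]; simp
  · right; rw [hk, h]; simp

theorem span_eq (h2 : Module.finrank ℚ K = 2) (hd : discr K < 0) (h4 : 4 < |discr K|)
    {a b : 𝓞 K} (h : span {a} = span {b}) : a = b ∨ a = -b := by
  obtain ⟨u, hu⟩ := Ideal.span_singleton_eq_span_singleton.mp h.symm
  rcases unit_eq h2 hd h4 u with h1 | h1
  · left; rw [← hu, h1, mul_one]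
  · right; rw [← hu, h1, mul_neg, mul_one]

/-- the data of a pair -/
structure Dt (g m n : ℕ) (α β : 𝓞 K) (A B : Ideal (𝓞 K)) : Prop where
  nint : ∀ k : ℤ, α ≠ (k : 𝓞 K)
  sum : α + β = (n : 𝓞 K)
  prd : α * β = (m : 𝓞 K) ^ g
  hA : A ^ g = span {α}
  hB : B ^ g = span {β}
  hAB : A * B = span {(m : 𝓞 K)}
  cop : IsCoprime A B
  nA : absNorm A = m
  nB : absNorm B = m

theorem norm_conj (h2 : Module.finrank ℚ K = 2) {α β : 𝓞 K} {n M : ℤ}
    (hα : ∀ k : ℤ, α ≠ (k : 𝓞 K)) (hs : α + β = (n : 𝓞 K)) (hp : α * β = (M : 𝓞 K)) :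
    Algebra.norm ℤ α = M := by
  obtain ⟨t, ht⟩ := norm_eq h2 hα
  have h3 : α ^ 2 - (n : 𝓞 K) * α + (M : 𝓞 K) = 0 := by
    rw [← hs, ← hp]; ring
  exact (quad_unique h2 hα ht h3).2

theorem exists_dt (h2 : Module.finrank ℚ K = 2) {g m n : ℕ} (hg : 0 < g)
    (hc : Nat.Coprime m n) (hlt : n ^ 2 < 4 * m ^ g) {α : 𝓞 K}
    (hα : α ^ 2 - (n : 𝓞 K) * α + (m : 𝓞 K) ^ g = 0) :
    ∃ (β : 𝓞 K) (A B : Ideal (𝓞 K)), Dt g m n α β A B := by
  have hni : ∀ k : ℤ, α ≠ (k : 𝓞 K) := by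
    intro k hk
    rw [hk] at hα
    have h3 : k ^ 2 - (n : ℤ) * k + (m : ℤ) ^ g = 0 := by exact_mod_cast hα
    have h4 : (n : ℤ) ^ 2 < 4 * (m : ℤ) ^ g := by exact_mod_cast hlt
    nlinarith [sq_nonneg (2 * k - (n : ℤ))]
  have hs : α + ((n : 𝓞 K) - α) = (n : 𝓞 K) := by ring
  have hp : α * ((n : 𝓞 K) - α) = (m : 𝓞 K) ^ g := by linear_combination -hα
  set β : 𝓞 K := (n : 𝓞 K) - α with hβ
  have hniβ : ∀ k : ℤ, β ≠ (k : 𝓞 K) := by
    intro k hk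
    apply hni ((n : ℤ) - k)
    push_cast
    rw [← hk, hβ]; ring
  have hcop : IsCoprime (span {α}) (span {β}) := by
    rw [Ideal.isCoprime_span_singleton_iff]
    have hz : IsCoprime ((n : ℤ)) ((m : ℤ) ^ g) := by
      apply IsCoprime.pow_right
      exact (Nat.isCoprime_iff_coprime.mpr hc).symm
    obtain ⟨u, v, huv⟩ := hz
    have huv' : (u : 𝓞 K) * (n : 𝓞 K) + (v : 𝓞 K) * (m : 𝓞 K) ^ g = 1 := by
      have := congrArg (Int.cast : ℤ → 𝓞 K) huv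
      push_cast at this
      exact this
    refine ⟨(u : 𝓞 K) + v * β, (u : 𝓞 K), ?_⟩
    linear_combination huv' + (u : 𝓞 K) * hs + (v : 𝓞 K) * hp
  have hprod : span {α} * span {β} = (span {(m : 𝓞 K)}) ^ g := by
    rw [Ideal.span_singleton_mul_span_singleton, hp, Ideal.span_singleton_pow]
  obtain ⟨A, hA⟩ := exists_eq_pow_of_mul_eq_pow_of_coprime hcop hprod
  obtain ⟨B, hB⟩ := exists_eq_pow_of_mul_eq_pow_of_coprime hcop.symm ((mul_comm _ _).trans hprod)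
  have hg0 : g ≠ 0 := hg.ne'
  have hAB : A * B = span {(m : 𝓞 K)} := by
    have h5 : (A * B) ^ g = (span {(m : 𝓞 K)}) ^ g := by rw [mul_pow, ← hA, ← hB, hprod]
    exact dvd_antisymm ((UniqueFactorizationMonoid.pow_dvd_pow_iff_dvd hg0).mp h5.dvd)
      ((UniqueFactorizationMonoid.pow_dvd_pow_iff_dvd hg0).mp h5.symm.dvd)
  have hpM : α * β = (((m : ℤ) ^ g : ℤ) : 𝓞 K) := by rw [hp]; push_cast; rfl
  have hsM : α + β = ((n : ℤ) : 𝓞 K) := by rw [hs]; push_cast; rfl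
  have nα : Algebra.norm ℤ α = (m : ℤ) ^ g := norm_conj h2 hni hsM hpM
  have nβ : Algebra.norm ℤ β = (m : ℤ) ^ g :=
    norm_conj h2 hniβ ((add_comm _ _).trans hsM) ((mul_comm _ _).trans hpM)
  have key : ∀ (C : Ideal (𝓞 K)) (γ : 𝓞 K), span {γ} = C ^ g → Algebra.norm ℤ γ = (m : ℤ) ^ g →
      absNorm C = m := by
    intro C γ h1 h3
    have h5 : absNorm C ^ g = m ^ g := by
      rw [← map_pow, ← h1, absNorm_span_singleton, h3, Int.natAbs_pow, Int.natAbs_natCast]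
    exact (pow_left_inj₀ (Nat.zero_le _) (Nat.zero_le _) hg0).mp h5
  refine ⟨β, A, B, hni, hs, hp, hA.symm, hB.symm, hAB, ?_, key A α hA nα, key B β hB nβ⟩
  rw [hA, hB] at hcop
  exact (IsCoprime.pow_iff hg hg).mp hcop

/-- the class of the ideal is not killed by `j` -/
theorem not_principal (h2 : Module.finrank ℚ K = 2) (hd : discr K < 0) {g j m n : ℕ}
    (hj : 0 < j) (hm : 1 < m)
    (h4 : 4 < |discr K|) {α β : 𝓞 K} {A B : Ideal (𝓞 K)} (D : Dt g m n α β A B)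
    (halt : 4 * (m : ℤ) ^ j < |discr K| ∨
      g = 3 * j ∧ ∀ t : ℤ, (n : ℤ) ≠ t ^ 3 - 3 * t * (m : ℤ) ^ j) :
    ¬ (A ^ j).IsPrincipal := by
  rintro ⟨γ, hγ⟩
  have hγ' : A ^ j = span {γ} := hγ
  have hnγ : (Algebra.norm ℤ γ).natAbs = m ^ j := by
    rw [← absNorm_span_singleton, ← hγ', map_pow, D.nA]
  have hnγ' : |Algebra.norm ℤ γ| = (m : ℤ) ^ j := by
    rw [Int.abs_eq_natAbs, hnγ]; push_cast; rfl
  have hm0 : (m : 𝓞 K) ≠ 0 := by
    have : m ≠ 0 := by omega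
    exact_mod_cast this
  have hA0 : A ≠ 0 := by
    intro h
    have h5 := D.hAB
    rw [h, zero_mul] at h5
    exact hm0 (Ideal.span_singleton_eq_bot.mp h5.symm)
  rcases halt with h | ⟨hgj, hn⟩
  · obtain ⟨k, hk⟩ := int_of_small h2 hd (α := γ) (by rw [hnγ']; exact h)
    have hk2 : k ^ 2 = (m : ℤ) ^ j := by
      rw [hk, norm_int h2, abs_of_nonneg (sq_nonneg k)] at hnγ'
      exact hnγ'
    have h6 : A ^ j * B ^ j = A ^ j * A ^ j := by
      rw [← mul_pow, D.hAB, hγ', Ideal.span_singleton_pow, Ideal.span_singleton_mul_span_singleton,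
        hk]
      congr 2
      have := congrArg (Int.cast : ℤ → 𝓞 K) hk2
      push_cast at this
      rw [← this, sq]
    have h7 : B ^ j = A ^ j := mul_left_cancel₀ (pow_ne_zero j hA0) h6
    have h8 : IsCoprime (A ^ j) (B ^ j) := D.cop.pow
    rw [h7, isCoprime_self] at h8
    have h9 : absNorm (A ^ j) = 1 := by
      rw [Ideal.isUnit_iff.mp h8, absNorm_top]
    rw [map_pow, D.nA] at h9
    have h10 : 1 < m ^ j := Nat.one_lt_pow hj.ne' hm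
    omega
  · have h5 : span {γ ^ 3} = span {α} := by
      rw [← Ideal.span_singleton_pow, ← hγ', ← D.hA, ← pow_mul, hgj, mul_comm]
    have h6 : ∃ δ : 𝓞 K, α = δ ^ 3 := by
      rcases span_eq h2 hd h4 h5 with h | h
      · exact ⟨γ, h.symm⟩
      · exact ⟨-γ, by rw [Odd.neg_pow (by decide), h, neg_neg]⟩
    obtain ⟨δ, hδ⟩ := h6
    have hδi : ∀ k : ℤ, δ ≠ (k : 𝓞 K) := by
      intro k hk
      apply D.nint (k ^ 3)
      rw [hδ, hk]; push_cast; rfl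
    obtain ⟨t, ht⟩ := norm_eq h2 hδi
    set N := Algebra.norm ℤ δ with hN
    have h7 : α ^ 2 - ((t ^ 3 - 3 * t * N : ℤ) : 𝓞 K) * α + ((N ^ 3 : ℤ) : 𝓞 K) = 0 := by
      rw [hδ]
      push_cast
      linear_combination (δ ^ 4 + t * δ ^ 3 + (t ^ 2 - N) * δ ^ 2 + t * N * δ + N ^ 2) * ht
    have h8 : α ^ 2 - ((n : ℤ) : 𝓞 K) * α + (((m : ℤ) ^ g : ℤ) : 𝓞 K) = 0 := by
      push_cast
      rw [← D.sum, ← D.prd]; ring
    obtain ⟨h9, h10⟩ := quad_unique h2 D.nint h8 h7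
    have h11 : N = (m : ℤ) ^ j := by
      rw [hgj, mul_comm, pow_mul] at h10
      exact ((Odd.strictMono_pow (by decide : Odd 3)).injective h10).symm
    exact hn t (by rw [h9, h11])

/-- equal classes come from equal pairs -/
theorem eq_of_principal (h2 : Module.finrank ℚ K = 2) (hd : discr K < 0) {g m n m' n' : ℕ}
    (hg : 0 < g) (hm : 1 < m) (hm' : 1 < m') (h4 : 4 < |discr K|)
    (h5 : 4 * (m : ℤ) * m' < |discr K|) (hc : Nat.Coprime m n) (hc' : Nat.Coprime m' n')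
    {α β α' β' : 𝓞 K} {A B A' B' : Ideal (𝓞 K)} (D : Dt g m n α β A B)
    (D' : Dt g m' n' α' β' A' B') (hp : (A * B').IsPrincipal) : m = m' ∧ n = n' := by
  obtain ⟨γ, hγ⟩ := hp
  have hγ' : A * B' = span {γ} := hγ
  have hnγ : (Algebra.norm ℤ γ).natAbs = m * m' := by
    rw [← absNorm_span_singleton, ← hγ', map_mul, D.nA, D'.nB]
  have hnγ' : |Algebra.norm ℤ γ| = (m : ℤ) * m' := by
    rw [Int.abs_eq_natAbs, hnγ]; push_cast; rfl
  obtain ⟨k, hk⟩ := int_of_small h2 hd (α := γ) (by rw [hnγ', ← mul_assoc]; exact h5)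
  have hk2 : k ^ 2 = (m : ℤ) * m' := by
    rw [hk, norm_int h2, abs_of_nonneg (sq_nonneg k)] at hnγ'
    exact hnγ'
  have h6 : span {α * β'} = span {γ ^ g} := by
    rw [← Ideal.span_singleton_mul_span_singleton, ← D.hA, ← D'.hB, ← mul_pow, hγ',
      Ideal.span_singleton_pow]
  have h7 : ∃ l : ℤ, α * β' = (l : 𝓞 K) ∧ l ^ 2 = ((m : ℤ) * m') ^ g := by
    rcases span_eq h2 hd h4 h6 with h | h
    · refine ⟨k ^ g, ?_, ?_⟩
      · rw [h, hk]; push_cast; rfl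
      · rw [← hk2, ← pow_mul, ← pow_mul, mul_comm]
    · refine ⟨-(k ^ g), ?_, ?_⟩
      · rw [h, hk]; push_cast; rfl
      · rw [neg_sq, ← hk2, ← pow_mul, ← pow_mul, mul_comm]
  obtain ⟨l, hl, hl2⟩ := h7
  have hl0 : l ≠ 0 := by
    intro h0
    rw [h0] at hl2
    have : ((m : ℤ) * m') ^ g ≠ 0 := by positivity
    exact this (by rw [← hl2]; norm_num)
  have hl2' : (l : 𝓞 K) ^ 2 = ((m : 𝓞 K) * m') ^ g := by exact_mod_cast congrArg (Int.cast : ℤ → 𝓞 K) hl2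
  have h8 : β * α' = (l : 𝓞 K) := by
    have h9 : (l : 𝓞 K) * (β * α') = (l : 𝓞 K) * l := by
      rw [← sq, hl2', mul_pow, ← D.prd, ← D'.prd, ← hl]; ring
    exact mul_left_cancel₀ (by exact_mod_cast hl0) h9
  have h9 : (n : 𝓞 K) * (m' : 𝓞 K) ^ g = (l : 𝓞 K) * n' := by
    rw [← D.sum, ← D'.sum, ← D'.prd]
    linear_combination α' * hl + β' * h8
  have h10 : (n : ℤ) * (m' : ℤ) ^ g = l * n' := by exact_mod_cast h9
  have h11 : (n : ℤ) ^ 2 * (m' : ℤ) ^ g = (m : ℤ) ^ g * (n' : ℤ) ^ 2 := by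
    have h12 : ((m' : ℤ) ^ g) * ((n : ℤ) ^ 2 * (m' : ℤ) ^ g) =
        ((m' : ℤ) ^ g) * ((m : ℤ) ^ g * (n' : ℤ) ^ 2) := by
      have h13 := congrArg (fun z => z ^ 2) h10
      simp only [mul_pow] at h13
      rw [hl2, mul_pow] at h13
      linear_combination h13
    exact mul_left_cancel₀ (by positivity) h12
  have h12 : n ^ 2 * m' ^ g = m ^ g * n' ^ 2 := by exact_mod_cast h11
  have h13 : m ^ g ∣ m' ^ g := by
    have : m ^ g ∣ n ^ 2 * m' ^ g := ⟨_, h12⟩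
    exact (Nat.Coprime.pow g 2 hc).dvd_of_dvd_mul_left this
  have h14 : m' ^ g ∣ m ^ g := by
    have : m' ^ g ∣ m ^ g * n' ^ 2 := ⟨n ^ 2, by rw [← h12]; ring⟩
    exact (Nat.Coprime.pow g 2 hc').dvd_of_dvd_mul_right this
  have h15 : m = m' := Nat.dvd_antisymm ((Nat.pow_dvd_pow_iff hg.ne').mp h13)
    ((Nat.pow_dvd_pow_iff hg.ne').mp h14)
  refine ⟨h15, ?_⟩
  rw [← h15, mul_comm] at h12
  have h16 : n ^ 2 = n' ^ 2 := Nat.eq_of_mul_eq_mul_left (by positivity) h12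
  exact (Nat.pow_left_injective (n := 2) (by norm_num)) h16

theorem t_CLS : Pool.Agent.Y215.CT.S_CLS := by
  classical
  intro K _ _ h2 hd g j hg hj S hS
  have hex : ∀ x : S, ∃ (α β : 𝓞 K) (A B : Ideal (𝓞 K)), Dt g x.1.1 x.1.2 α β A B := by
    intro x
    obtain ⟨_, _, h3, h5, _, ⟨α, hα⟩, _⟩ := hS x.1 x.2
    obtain ⟨β, A, B, D⟩ := exists_dt h2 hg h3 h5 hα
    exact ⟨α, β, A, B, D⟩
  choose α β A B D using hex
  have h4 : ∀ x : S, 4 < |discr K| := by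
    intro x
    obtain ⟨h1, _, _, _, h5, _⟩ := hS x.1 x.2
    have : (1 : ℤ) < (x.1.1 : ℤ) := by exact_mod_cast h1
    nlinarith
  have hm0 : ∀ x : S, ((x.1.1 : ℕ) : 𝓞 K) ≠ 0 := by
    intro x
    have h1 := (hS x.1 x.2).1
    have : x.1.1 ≠ 0 := by omega
    exact_mod_cast this
  have hAB0 : ∀ x : S, A x * B x ≠ 0 := by
    intro x h
    rw [(D x).hAB] at h
    exact hm0 x (Ideal.span_singleton_eq_bot.mp h)
  have hA0 : ∀ x : S, A x ≠ 0 := fun x h => hAB0 x (by rw [h, zero_mul])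
  have hB0 : ∀ x : S, B x ≠ 0 := fun x h => hAB0 x (by rw [h, mul_zero])
  let a : S → (Ideal (𝓞 K))⁰ := fun x => ⟨A x, mem_nonZeroDivisors_of_ne_zero (hA0 x)⟩
  let b : S → (Ideal (𝓞 K))⁰ := fun x => ⟨B x, mem_nonZeroDivisors_of_ne_zero (hB0 x)⟩
  have hone : ∀ I : (Ideal (𝓞 K))⁰, ClassGroup.mk0 I = 1 ↔ (I : Ideal (𝓞 K)).IsPrincipal :=
    fun I => ClassGroup.mk0_eq_one_iff I.2
  have hc : ∀ x : S, ClassGroup.mk0 (a x) ^ g = 1 ∧ ClassGroup.mk0 (a x) ^ j ≠ 1 := by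
    intro x
    obtain ⟨h1, _, _, _, _, _, h7⟩ := hS x.1 x.2
    constructor
    · rw [← map_pow, hone]
      exact ⟨α x, (D x).hA⟩
    · rw [← map_pow, Ne, hone]
      exact not_principal h2 hd hj h1 (h4 x) (D x) h7
  have hfin : Finite {c : ClassGroup (𝓞 K) // c ^ g = 1 ∧ c ^ j ≠ 1} := inferInstance
  let f : S → {c : ClassGroup (𝓞 K) // c ^ g = 1 ∧ c ^ j ≠ 1} := fun x => ⟨_, hc x⟩
  have hf : Function.Injective f := by
    intro x y hxy
    have h1 : ClassGroup.mk0 (a x) = ClassGroup.mk0 (a y) := congrArg Subtype.val hxy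
    have h3 : ClassGroup.mk0 (a y * b y) = 1 := by
      rw [hone]
      exact ⟨_, (D y).hAB⟩
    have h5 : ClassGroup.mk0 (a x * b y) = 1 := by
      rw [map_mul, h1, ← map_mul, h3]
    rw [hone] at h5
    obtain ⟨hx1, _, hx3, _, hx5, _⟩ := hS x.1 x.2
    obtain ⟨hy1, _, hy3, _, hy5, _⟩ := hS y.1 y.2
    have h6 : 4 * (x.1.1 : ℤ) * y.1.1 < |discr K| := by
      nlinarith [sq_nonneg ((x.1.1 : ℤ) - y.1.1)]
    obtain ⟨h7, h8⟩ := eq_of_principal h2 hd hg hx1 hy1 (h4 x) h6 hx3 hy3 (D x) (D y) h5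
    exact Subtype.ext (Prod.ext h7 h8)
  have := Nat.card_le_card_of_injective f hf
  rwa [Nat.card_eq_fintype_card, Fintype.card_coe] at this

end Pool.Agent.Y919.CT
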